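import Pool.Agent.Q170.KF.Final

namespace Pool.Agent.Results.MP_5fe7ea_an.SeparableMajorization

open Matrix Q170.KF
open scoped ComplexOrder

/-- For positive semidefinite `A r` (size `m`) and `B r` (size `n`), `r` in any finite index type,
the non-increasing eigenvalue list of `M = ∑ r, A r ⊗ B r` is majorized by that of
`M' = ∑ r, (A r)↓ ⊗ (B r)↓`. -/
theorem result {m n : ℕ} {R : Type*} [Fintype R]
    (A : R → Matrix (Fin m) (Fin m) ℂ) (B : R → Matrix (Fin n) (Fin n) ℂ)
    (hA : ∀ r, (A r).PosSemidef) (hB : ∀ r, (B r).PosSemidef) :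
    ∃ (hM : (∑ r, Matrix.kroneckerMap (· * ·) (A r) (B r)).IsHermitian)
      (hM' : (∑ r, Matrix.kroneckerMap (· * ·) (down (hA r).1) (down (hB r).1)).IsHermitian),
      (∀ t : ℕ, psum hM.eigenvalues₀ t ≤ psum hM'.eigenvalues₀ t) ∧
      ∑ i, hM.eigenvalues₀ i = ∑ i, hM'.eigenvalues₀ i := by
  refine ⟨herm_sum A B (fun r => (hA r).1) (fun r => (hB r).1),
    herm_sum _ _ (fun r => down_herm (hA r).1) (fun r => down_herm (hB r).1), ?_, ?_⟩
  · intro t
    by_cases ht : t ≤ Fintype.card (Fin m × Fin n)
    · exact main_ineq A B hA hB _ _ ht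
    · have h1 : ∀ lam : Fin (Fintype.card (Fin m × Fin n)) → ℝ, psum lam t = ∑ i, lam i := by
        intro lam
        unfold psum
        congr 1
        ext i
        have := i.2
        simp only [Finset.mem_filter, Finset.mem_univ, true_and, iff_true]
        omega
      rw [h1, h1]
      exact (total A B hA hB _ _).le
  · exact total A B hA hB _ _

end Pool.Agent.Results.MP_5fe7ea_an.SeparableMajorization
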